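import Pool.Agent.H68Z.Eqv.Count

set_option autoImplicit false

namespace Pool.Agent.H68Z.Eqv

open Finset PowerSeries
open scoped Pointwise

/-- The involution of the lattice. -/
def R : Matrix (Fin 5) (Fin 5) ℤ :=
  !![1, 0, 0, 0, 0; 0, 1, 0, 0, 0; 0, 0, 1, 0, 0; 1, 0, 1, -1, 0; 0, 1, 1, 0, -1]

theorem RR : R * R = 1 := by decide +kernel

/-- The involution as a unit. -/
def r : Matrix.GeneralLinearGroup (Fin 5) ℤ := ⟨R, R, RR, RR⟩

/-- The action of the group of order two. -/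
def rho : ℤˣ →* Matrix.GeneralLinearGroup (Fin 5) ℤ where
  toFun u := if u = 1 then 1 else r
  map_one' := by simp
  map_mul' a b := by
    have hr : r * r = 1 := Units.ext RR
    have hn : (-1 : ℤˣ) ≠ 1 := by decide
    rcases Int.units_eq_one_or a with rfl | rfl <;> rcases Int.units_eq_one_or b with rfl | rfl <;>
      simp [hn, hr]

theorem rho_one : ((rho 1 : Matrix.GeneralLinearGroup (Fin 5) ℤ) : Matrix (Fin 5) (Fin 5) ℤ) = 1 := by
  simp

theorem rho_neg :
    ((rho (-1) : Matrix.GeneralLinearGroup (Fin 5) ℤ) : Matrix (Fin 5) (Fin 5) ℤ) = R := rfl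

theorem R_mulVec (x : Fin 5 → ℤ) :
    R.mulVec x = ![x 0, x 1, x 2, x 0 + x 2 - x 3, x 1 + x 2 - x 4] := by
  rw [ext5]
  simp [R, Matrix.mulVec, dotProduct, Fin.sum_univ_five]
  omega

theorem V_ne : V.Nonempty := by simp [V]

theorem V_inv : ∀ g : ℤˣ, ∀ v ∈ V, Matrix.mulVec (rho g : Matrix (Fin 5) (Fin 5) ℤ) v ∈ V := by
  intro g v hv
  rcases Int.units_eq_one_or g with rfl | rfl
  · rw [rho_one, Matrix.one_mulVec]; exact hv
  · rw [rho_neg, R_mulVec]
    revert v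
    decide +kernel

/-- The lattice of translations. -/
def iota : (Fin 4 → ℤ) →ₗ[ℤ] (Fin 5 → ℤ) where
  toFun y := ![y 0, y 1, -y 0 - y 1, y 2, y 3]
  map_add' a b := by rw [ext5]; simp; ring
  map_smul' a b := by rw [ext5]; simp; ring

theorem iota_apply (y : Fin 4 → ℤ) : iota y = ![y 0, y 1, -y 0 - y 1, y 2, y 3] := rfl

theorem iota_inj : Function.Injective iota := by
  intro a b h
  rw [iota_apply, iota_apply, ext5] at h
  simp at h
  funext i
  fin_cases i <;> simp <;> omega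

theorem iota_range : ∀ x : Fin 5 → ℤ,
    (∃ y : Fin 4 → ℤ, iota y = x) ↔ (fun j => ((x j : ℤ) : ℝ)) ∈ vectorSpan ℝ P := by
  intro x
  rw [mem_vs]
  constructor
  · rintro ⟨y, rfl⟩
    simp [iota_apply]
  · intro h
    have h' : x 0 + x 1 + x 2 = 0 := by exact_mod_cast h
    refine ⟨![x 0, x 1, x 3, x 4], ?_⟩
    rw [iota_apply, ext5]
    simp
    omega

/-- The restricted involution. -/
def S : Matrix (Fin 4) (Fin 4) ℤ := !![1, 0, 0, 0; 0, 1, 0, 0; 0, -1, -1, 0; -1, 0, 0, -1]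

/-- The restricted action. -/
def sig (u : ℤˣ) : Matrix (Fin 4) (Fin 4) ℤ := if u = 1 then 1 else S

theorem sig_one : sig 1 = 1 := rfl

theorem sig_neg : sig (-1) = S := rfl

theorem iota_sig : ∀ (g : ℤˣ) (y : Fin 4 → ℤ),
    iota (Matrix.mulVec (sig g) y) = Matrix.mulVec (rho g : Matrix (Fin 5) (Fin 5) ℤ) (iota y) := by
  intro g y
  rcases Int.units_eq_one_or g with rfl | rfl
  · rw [rho_one, sig_one, Matrix.one_mulVec, Matrix.one_mulVec]
  · rw [rho_neg, sig_neg, R_mulVec, iota_apply, iota_apply, ext5]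
    simp [S, Matrix.mulVec, dotProduct, Fin.sum_univ_four]
    omega

/-- The equivariant series. -/
noncomputable def Phi (u : ℤˣ) : ℤ⟦X⟧ := if u = 1 then 1 + X + X ^ 2 else 1 - X + X ^ 2

theorem Phi_one : Phi 1 = 1 + X + X ^ 2 := rfl

theorem Phi_neg : Phi (-1) = 1 - X + X ^ 2 := rfl

theorem det_one : Matrix.det (1 - (Polynomial.X : Polynomial ℤ) •
    (1 : Matrix (Fin 4) (Fin 4) ℤ).map Polynomial.C) = (1 - Polynomial.X) ^ 4 := by
  rw [Matrix.det_of_lowerTriangular]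
  · simp [Fin.prod_univ_four]
  · intro i j hij
    have : i ≠ j := by
      rintro rfl
      exact lt_irrefl _ hij
    simp [Matrix.one_apply_ne this]

theorem det_S : Matrix.det (1 - (Polynomial.X : Polynomial ℤ) • S.map Polynomial.C) =
    (1 - Polynomial.X) ^ 2 * (1 + Polynomial.X) ^ 2 := by
  rw [Matrix.det_of_lowerTriangular]
  · simp [Fin.prod_univ_four, S]
    ring
  · intro i j hij
    fin_cases i <;> fin_cases j <;> simp [S] at hij ⊢ <;> exact absurd hij (by decide)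

theorem Phi_eq : ∀ g : ℤˣ, Phi g =
    PowerSeries.mk (fun m : ℕ =>
      ((Set.ncard {x : Fin 5 → ℤ |
          (fun j => ((x j : ℤ) : ℝ)) ∈ (m : ℝ) • P ∧
          Matrix.mulVec (rho g : Matrix (Fin 5) (Fin 5) ℤ) x = x} : ℕ) : ℤ))
    * (1 - PowerSeries.X)
    * ((Matrix.det (1 - (Polynomial.X : Polynomial ℤ) •
          (sig g).map Polynomial.C) : Polynomial ℤ) : PowerSeries ℤ) := by
  intro g
  rcases Int.units_eq_one_or g with rfl | rfl
  · have e : PowerSeries.mk (fun m : ℕ => ((Set.ncard {x : Fin 5 → ℤ |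
          (fun j => ((x j : ℤ) : ℝ)) ∈ (m : ℝ) • P ∧
          Matrix.mulVec (rho 1 : Matrix (Fin 5) (Fin 5) ℤ) x = x} : ℕ) : ℤ)) =
        (1 + X + X ^ 2) * (mk 1 : ℤ⟦X⟧) ^ 5 := by
      ext m
      rw [coeff_mk, ← H_card]
      congr 2
      ext x
      rw [rho_one]
      simp [mem_dilate]
    rw [e, sig_one, det_one, Phi_one, ← ser1]
    simp [ser1]
  · have e : PowerSeries.mk (fun m : ℕ => ((Set.ncard {x : Fin 5 → ℤ |
          (fun j => ((x j : ℤ) : ℝ)) ∈ (m : ℝ) • P ∧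
          Matrix.mulVec (rho (-1) : Matrix (Fin 5) (Fin 5) ℤ) x = x} : ℕ) : ℤ)) =
        (1 + X ^ 3) * expand 2 two_ne_zero ((mk 1 : ℤ⟦X⟧) ^ 3) := by
      ext m
      rw [coeff_mk, ← Fx_card]
      congr 2
      ext x
      rw [rho_neg]
      simp only [Set.mem_ofPred_eq, mem_dilate, Fx, R_mulVec, ext5]
      simp
      intro _
      omega
    rw [e, sig_neg, det_S, Phi_neg, ← ser2]
    simp

theorem Phi_poly : ∃ N : ℕ, ∀ g : ℤˣ, ∀ i : ℕ, N ≤ i → PowerSeries.coeff (R := ℤ) i (Phi g) = 0 := by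
  refine ⟨3, fun g i hi => ?_⟩
  have h0 : i ≠ 0 := by omega
  have h1 : i ≠ 1 := by omega
  have h2 : i ≠ 2 := by omega
  rcases Int.units_eq_one_or g with rfl | rfl
  · simp [Phi_one, coeff_X, coeff_X_pow, coeff_one, h0, h1, h2]
  · simp [Phi_neg, coeff_X, coeff_X_pow, coeff_one, h0, h1, h2]

theorem Phi_pos : 0 < PowerSeries.coeff (R := ℤ) 1 (Phi 1) := by
  simp [Phi_one, coeff_X, coeff_X_pow, coeff_one]

theorem Phi_sum : ∑ g : ℤˣ, PowerSeries.coeff (R := ℤ) 1 (Phi g) = 0 := by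
  have : (univ : Finset ℤˣ) = {1, -1} := by decide
  rw [this, Finset.sum_pair (by decide), Phi_one, Phi_neg]
  simp [coeff_X, coeff_X_pow, coeff_one]

end Pool.Agent.H68Z.Eqv
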