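import Mathlib

set_option autoImplicit false

namespace Pool.Agent.H68Z.Eqv

open Finset PowerSeries
open scoped Pointwise

/-- Tuples with a prescribed weighted sum. -/
def T (k q j m : ℕ) : Set (Fin k → ℕ) := {c | q * ∑ i, c i + j = m}

theorem base (d m : ℕ) : {c : Fin (d + 1) → ℕ | ∑ i, c i = m}.ncard = (d + m).choose d ∧
    {c : Fin (d + 1) → ℕ | ∑ i, c i = m}.Finite := by
  have e : {c : Fin (d + 1) → ℕ | ∑ i, c i = m} =
      (fun f : Fin (d + 1) →₀ ℕ => (f : Fin (d + 1) → ℕ)) ''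
        ((univ : Finset (Fin (d + 1))).finsuppAntidiag m : Set _) := by
    ext c
    constructor
    · intro hc
      refine ⟨Finsupp.equivFunOnFinite.symm c, ?_, rfl⟩
      simpa [Finset.mem_finsuppAntidiag] using hc
    · rintro ⟨f, hf, rfl⟩
      simpa [Finset.mem_finsuppAntidiag] using hf
  rw [e]
  refine ⟨?_, (Finset.finite_toSet _).image _⟩
  rw [Set.ncard_image_of_injective _ DFunLike.coe_injective, Set.ncard_coe_finset,
    Finset.card_finsuppAntidiag_nat_eq_choose]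
  simp only [card_univ, Fintype.card_fin]
  rw [show d + 1 + m - 1 = d + m by omega, Nat.choose_symm_add]

theorem T_spec (d q j m : ℕ) (hq : q ≠ 0) :
    ((T (d + 1) q j m).ncard : ℤ) =
      coeff m (X ^ j * expand q hq ((mk 1 : ℤ⟦X⟧) ^ (d + 1))) ∧ (T (d + 1) q j m).Finite := by
  rw [coeff_X_pow_mul', mk_one_pow_eq_mk_choose_add]
  by_cases h : ∃ s, m = q * s + j
  · obtain ⟨s, rfl⟩ := h
    have e : T (d + 1) q j (q * s + j) = {c | ∑ i, c i = s} := by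
      ext c
      simp [T, hq]
    rw [e, (base d s).1, if_pos (by omega), Nat.add_sub_cancel, coeff_expand_mul, coeff_mk]
    exact ⟨rfl, (base d s).2⟩
  · have e : T (d + 1) q j m = ∅ := by
      ext c
      simp only [T, Set.mem_ofPred_eq, Set.mem_empty_iff_false, iff_false]
      exact fun hc => h ⟨_, hc.symm⟩
    rw [e]
    refine ⟨?_, Set.finite_empty⟩
    split_ifs with hj
    · rw [coeff_expand_of_not_dvd]
      · simp
      · rintro ⟨s, hs⟩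
        exact h ⟨s, by omega⟩
    · simp

/-- The inequality description of the lattice points of the `m`-th dilate. -/
def H (m : ℕ) : Set (Fin 5 → ℤ) :=
  {x | x 0 + x 1 + x 2 = m ∧ 0 ≤ x 0 ∧ 0 ≤ x 1 ∧ 0 ≤ x 2 ∧ 0 ≤ x 3 ∧ x 3 ≤ x 0 + x 2 ∧ 0 ≤ x 4 ∧
    x 4 ≤ x 1 + x 2 ∧ x 3 - x 4 ≤ x 0 ∧ x 4 - x 3 ≤ x 1}

def f1 (c : Fin 5 → ℕ) : Fin 5 → ℤ := ![c 2, c 0 + c 3, c 1 + c 4, c 4, c 0 + c 4]
def f2 (c : Fin 5 → ℕ) : Fin 5 → ℤ := ![c 0 + 1 + c 2, c 3, c 1 + c 4, c 0 + 1 + c 4, c 4]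
def f3 (c : Fin 5 → ℕ) : Fin 5 → ℤ :=
  ![c 0 + 1 + c 2, c 1 + 1 + c 3, c 4, c 0 + 1 + c 4, c 1 + 1 + c 4]
def g0 (c : Fin 3 → ℕ) : Fin 5 → ℤ := ![2 * c 0, 2 * c 1, 2 * c 2, c 0 + c 2, c 1 + c 2]
def g1 (c : Fin 3 → ℕ) : Fin 5 → ℤ :=
  ![2 * c 0 + 1, 2 * c 1 + 1, 2 * c 2 + 1, c 0 + c 2 + 1, c 1 + c 2 + 1]

theorem ext5 {α : Type} {x y : Fin 5 → α} :
    x = y ↔ x 0 = y 0 ∧ x 1 = y 1 ∧ x 2 = y 2 ∧ x 3 = y 3 ∧ x 4 = y 4 := by
  constructor
  · rintro rfl; simp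
  · rintro ⟨h0, h1, h2, h3, h4⟩
    funext i
    fin_cases i <;> assumption

theorem ext3 {α : Type} {x y : Fin 3 → α} : x = y ↔ x 0 = y 0 ∧ x 1 = y 1 ∧ x 2 = y 2 := by
  constructor
  · rintro rfl; simp
  · rintro ⟨h0, h1, h2⟩
    funext i
    fin_cases i <;> assumption

theorem H_eq (m : ℕ) : H m = f1 '' T 5 1 0 m ∪ f2 '' T 5 1 1 m ∪ f3 '' T 5 1 2 m := by
  ext x
  simp only [H, T, Set.mem_ofPred_eq, Set.mem_union, Set.mem_image, Fin.sum_univ_five]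
  constructor
  · intro h
    by_cases h1 : x 3 ≤ x 4 ∧ x 3 ≤ x 2
    · left; left
      refine ⟨![(x 4 - x 3).toNat, (x 2 - x 3).toNat, (x 0).toNat, (x 1 - x 4 + x 3).toNat,
        (x 3).toNat], ?_, ?_⟩
      · simp; omega
      · rw [ext5]; simp [f1]; omega
    · by_cases h2 : x 4 ≤ x 2 ∧ x 4 < x 3
      · left; right
        refine ⟨![(x 3 - x 4 - 1).toNat, (x 2 - x 4).toNat, (x 0 - x 3 + x 4).toNat, (x 1).toNat,
          (x 4).toNat], ?_, ?_⟩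
        · simp; omega
        · rw [ext5]; simp [f2]; omega
      · right
        refine ⟨![(x 3 - x 2 - 1).toNat, (x 4 - x 2 - 1).toNat, (x 0 - x 3 + x 2).toNat,
          (x 1 - x 4 + x 2).toNat, (x 2).toNat], ?_, ?_⟩
        · simp; omega
        · rw [ext5]; simp [f3]; omega
  · rintro ((⟨c, hc, rfl⟩ | ⟨c, hc, rfl⟩) | ⟨c, hc, rfl⟩)
    · simp [f1]; omega
    · simp [f2]; omega
    · simp [f3]; omega

theorem H_card (m : ℕ) : ((H m).ncard : ℤ) =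
    coeff m ((1 + X + X ^ 2) * (mk 1 : ℤ⟦X⟧) ^ 5) := by
  have a0 := T_spec 4 1 0 m one_ne_zero
  have a1 := T_spec 4 1 1 m one_ne_zero
  have a2 := T_spec 4 1 2 m one_ne_zero
  have i1 : Function.Injective f1 := by
    intro c c' h; rw [ext5] at h ⊢; simp [f1] at h; omega
  have i2 : Function.Injective f2 := by
    intro c c' h; rw [ext5] at h ⊢; simp [f2] at h; omega
  have i3 : Function.Injective f3 := by
    intro c c' h; rw [ext5] at h ⊢; simp [f3] at h; omega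
  rw [H_eq, Set.ncard_union_eq ?_ ((a0.2.image _).union (a1.2.image _)) (a2.2.image _),
    Set.ncard_union_eq ?_ (a0.2.image _) (a1.2.image _), Set.ncard_image_of_injective _ i1,
    Set.ncard_image_of_injective _ i2, Set.ncard_image_of_injective _ i3]
  · push_cast
    rw [a0.1, a1.1, a2.1, expand_one_apply, ← map_add, ← map_add]
    congr 1
    ring
  · rw [Set.disjoint_left]
    rintro _ ⟨c, -, rfl⟩ ⟨c', -, h⟩
    rw [ext5] at h; simp [f1, f2] at h; omega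
  · rw [Set.disjoint_left]
    rintro _ (⟨c, -, rfl⟩ | ⟨c, -, rfl⟩) ⟨c', -, h⟩
    · rw [ext5] at h; simp [f1, f3] at h; omega
    · rw [ext5] at h; simp [f2, f3] at h; omega

/-- The fixed lattice points. -/
def Fx (m : ℕ) : Set (Fin 5 → ℤ) := {x | x ∈ H m ∧ 2 * x 3 = x 0 + x 2 ∧ 2 * x 4 = x 1 + x 2}

theorem Fx_eq (m : ℕ) : Fx m = g0 '' T 3 2 0 m ∪ g1 '' T 3 2 3 m := by
  ext x
  simp only [Fx, H, T, Set.mem_ofPred_eq, Set.mem_union, Set.mem_image, Fin.sum_univ_three]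
  constructor
  · intro h
    by_cases h1 : x 2 % 2 = 0
    · left
      refine ⟨![(x 0 / 2).toNat, (x 1 / 2).toNat, (x 2 / 2).toNat], ?_, ?_⟩
      · simp; omega
      · rw [ext5]; simp [g0]; omega
    · right
      refine ⟨![(x 0 / 2).toNat, (x 1 / 2).toNat, (x 2 / 2).toNat], ?_, ?_⟩
      · simp; omega
      · rw [ext5]; simp [g1]; omega
  · rintro (⟨c, hc, rfl⟩ | ⟨c, hc, rfl⟩)
    · simp [g0]; omega
    · simp [g1]; omega

theorem Fx_card (m : ℕ) : ((Fx m).ncard : ℤ) =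
    coeff m ((1 + X ^ 3) * expand 2 two_ne_zero ((mk 1 : ℤ⟦X⟧) ^ 3)) := by
  have a0 := T_spec 2 2 0 m two_ne_zero
  have a1 := T_spec 2 2 3 m two_ne_zero
  have i1 : Function.Injective g0 := by
    intro c c' h; rw [ext5] at h; rw [ext3]; simp [g0] at h; omega
  have i2 : Function.Injective g1 := by
    intro c c' h; rw [ext5] at h; rw [ext3]; simp [g1] at h; omega
  rw [Fx_eq, Set.ncard_union_eq ?_ (a0.2.image _) (a1.2.image _),
    Set.ncard_image_of_injective _ i1, Set.ncard_image_of_injective _ i2]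
  · push_cast
    rw [a0.1, a1.1, ← map_add]
    congr 1
    ring
  · rw [Set.disjoint_left]
    rintro _ ⟨c, -, rfl⟩ ⟨c', -, h⟩
    rw [ext5] at h; simp [g0, g1] at h; omega

theorem ser1 : (1 + X + X ^ 2) * (mk 1 : ℤ⟦X⟧) ^ 5 * (1 - X) * (1 - X) ^ 4 = 1 + X + X ^ 2 := by
  have h := mk_one_mul_one_sub_eq_one ℤ
  calc _ = (1 + X + X ^ 2) * ((mk 1 : ℤ⟦X⟧) * (1 - X)) ^ 5 := by ring
    _ = _ := by rw [h]; ring

theorem ser2 : (1 + X ^ 3) * expand 2 two_ne_zero ((mk 1 : ℤ⟦X⟧) ^ 3) * (1 - X) *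
    ((1 - X) ^ 2 * (1 + X) ^ 2) = 1 - X + X ^ 2 := by
  have h := congrArg (expand 2 two_ne_zero) (mk_one_mul_one_sub_eq_one ℤ)
  rw [map_mul, map_sub, map_one, expand_X] at h
  rw [map_pow]
  calc _ = (1 - X + X ^ 2) * (expand 2 two_ne_zero (mk 1 : ℤ⟦X⟧) * (1 - X ^ 2)) ^ 3 := by ring
    _ = _ := by rw [h]; ring

/-- The six vertices of the Birkhoff polytope `B₃`, in Cayley coordinates. -/
def V : Finset (Fin 5 → ℤ) :=
  {![1, 0, 0, 1, 0], ![0, 1, 0, 0, 1], ![0, 0, 1, 0, 0], ![1, 0, 0, 0, 0], ![0, 1, 0, 0, 0],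
    ![0, 0, 1, 1, 1]}

/-- The polytope. -/
def P : Set (Fin 5 → ℝ) :=
  convexHull ℝ ((fun v : Fin 5 → ℤ => fun j => ((v j : ℤ) : ℝ)) '' (V : Set (Fin 5 → ℤ)))

/-- The real inequality description. -/
def HR : Set (Fin 5 → ℝ) :=
  {x | x 0 + x 1 + x 2 = 1 ∧ 0 ≤ x 0 ∧ 0 ≤ x 1 ∧ 0 ≤ x 2 ∧ 0 ≤ x 3 ∧ x 3 ≤ x 0 + x 2 ∧ 0 ≤ x 4 ∧
    x 4 ≤ x 1 + x 2 ∧ x 3 - x 4 ≤ x 0 ∧ x 4 - x 3 ≤ x 1}

theorem P_sub : P ⊆ HR := by
  refine convexHull_min ?_ ?_
  · rintro _ ⟨v, hv, rfl⟩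
    simp only [V, coe_insert, coe_singleton, Set.mem_insert_iff, Set.mem_singleton_iff] at hv
    rcases hv with rfl | rfl | rfl | rfl | rfl | rfl <;> simp [HR]
  · rintro x ⟨h0, h1, h2, h3, h4, h5, h6, h7, h8, h9⟩ y ⟨k0, k1, k2, k3, k4, k5, k6, k7, k8, k9⟩
      a b ha hb hab
    simp only [HR, Set.mem_ofPred_eq, Pi.add_apply, Pi.smul_apply, smul_eq_mul]
    refine ⟨?_, ?_, ?_, ?_, ?_, ?_, ?_, ?_, ?_, ?_⟩
    · linear_combination a * h0 + b * k0 + hab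
    all_goals nlinarith [mul_le_mul_of_nonneg_left h5 ha, mul_le_mul_of_nonneg_left k5 hb,
      mul_le_mul_of_nonneg_left h7 ha, mul_le_mul_of_nonneg_left k7 hb,
      mul_le_mul_of_nonneg_left h8 ha, mul_le_mul_of_nonneg_left k8 hb,
      mul_le_mul_of_nonneg_left h9 ha, mul_le_mul_of_nonneg_left k9 hb,
      mul_nonneg ha h1, mul_nonneg ha h2, mul_nonneg ha h3, mul_nonneg ha h4, mul_nonneg ha h6,
      mul_nonneg hb k1, mul_nonneg hb k2, mul_nonneg hb k3, mul_nonneg hb k4, mul_nonneg hb k6]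

/-- The vertices as real vectors. -/
def w : Fin 6 → Fin 5 → ℝ :=
  ![![1, 0, 0, 1, 0], ![0, 1, 0, 0, 1], ![0, 0, 1, 0, 0], ![1, 0, 0, 0, 0], ![0, 1, 0, 0, 0],
    ![0, 0, 1, 1, 1]]

theorem w_mem (i : Fin 6) : w i ∈ P := by
  refine subset_convexHull _ _ ?_
  fin_cases i
  · exact ⟨![1, 0, 0, 1, 0], by simp [V], by rw [ext5]; simp [w]⟩
  · exact ⟨![0, 1, 0, 0, 1], by simp [V], by rw [ext5]; simp [w]⟩
  · exact ⟨![0, 0, 1, 0, 0], by simp [V], by rw [ext5]; simp [w]⟩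
  · exact ⟨![1, 0, 0, 0, 0], by simp [V], by rw [ext5]; simp [w]⟩
  · exact ⟨![0, 1, 0, 0, 0], by simp [V], by rw [ext5]; simp [w]⟩
  · exact ⟨![0, 0, 1, 1, 1], by simp [V], by rw [ext5]; simp [w]⟩

theorem sub_P : HR ⊆ P := by
  rintro x ⟨h0, h1, h2, h3, h4, h5, h6, h7, h8, h9⟩
  obtain ⟨s, s1, s2, s3, s4, s5, s6⟩ : ∃ s : ℝ, s ≤ x 3 ∧ s ≤ x 4 ∧ s ≤ x 2 ∧ 0 ≤ s ∧
      x 3 - x 0 ≤ s ∧ x 4 - x 1 ≤ s := by
    refine ⟨min (x 3) (min (x 4) (x 2)), min_le_left _ _,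
      (min_le_right _ _).trans (min_le_left _ _), (min_le_right _ _).trans (min_le_right _ _),
      ?_, ?_, ?_⟩ <;> simp only [le_min_iff] <;> refine ⟨?_, ?_, ?_⟩ <;> linarith
  have hc : Convex ℝ P := convex_convexHull _ _
  have := hc.sum_mem (t := (univ : Finset (Fin 6)))
    (w := ![x 3 - s, x 4 - s, x 2 - s, x 0 - x 3 + s, x 1 - x 4 + s, s]) (z := w)
    (by intro i _; fin_cases i <;> simp <;> linarith)
    (by simp [Fin.sum_univ_six]; linarith) (fun i _ => w_mem i)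
  convert this using 1
  rw [ext5]
  simp [Fin.sum_univ_six, w]

theorem mem_dilate (m : ℕ) (x : Fin 5 → ℤ) :
    (fun j => ((x j : ℤ) : ℝ)) ∈ (m : ℝ) • P ↔ x ∈ H m := by
  constructor
  · rintro ⟨y, hy, e⟩
    obtain ⟨h0, h1, h2, h3, h4, h5, h6, h7, h8, h9⟩ := P_sub hy
    rw [ext5] at e
    simp only [Pi.smul_apply, smul_eq_mul] at e
    obtain ⟨e0, e1, e2, e3, e4⟩ := e
    have hm : (0 : ℝ) ≤ m := Nat.cast_nonneg m
    refine ⟨?_, ?_, ?_, ?_, ?_, ?_, ?_, ?_, ?_, ?_⟩ <;> rify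
    · linear_combination (m : ℝ) * h0 - e0 - e1 - e2
    all_goals nlinarith [mul_le_mul_of_nonneg_left h5 hm, mul_le_mul_of_nonneg_left h7 hm,
      mul_le_mul_of_nonneg_left h8 hm, mul_le_mul_of_nonneg_left h9 hm,
      mul_nonneg hm h1, mul_nonneg hm h2, mul_nonneg hm h3, mul_nonneg hm h4, mul_nonneg hm h6]
  · intro h
    rcases Nat.eq_zero_or_pos m with rfl | hm
    · refine ⟨w 0, w_mem 0, ?_⟩
      obtain ⟨h0, h1, h2, h3, h4, h5, h6, h7, h8, h9⟩ := h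
      have : x = 0 := by rw [ext5]; simp at h0 ⊢; omega
      subst this
      funext j
      simp
    · obtain ⟨h0, h1, h2, h3, h4, h5, h6, h7, h8, h9⟩ := h
      rify at h0 h1 h2 h3 h4 h5 h6 h7 h8 h9 hm
      have hi : (0 : ℝ) ≤ (m : ℝ)⁻¹ := by positivity
      refine ⟨fun j => (m : ℝ)⁻¹ * (x j : ℝ), sub_P ⟨?_, ?_, ?_, ?_, ?_, ?_, ?_, ?_, ?_, ?_⟩, ?_⟩
      · rw [← mul_add, ← mul_add, h0]; field_simp
      any_goals nlinarith [mul_le_mul_of_nonneg_left h5 hi, mul_le_mul_of_nonneg_left h7 hi,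
        mul_le_mul_of_nonneg_left h8 hi, mul_le_mul_of_nonneg_left h9 hi,
        mul_nonneg hi h1, mul_nonneg hi h2, mul_nonneg hi h3, mul_nonneg hi h4, mul_nonneg hi h6]
      funext j
      simp only [Pi.smul_apply, smul_eq_mul]
      field_simp

theorem mem_vs (v : Fin 5 → ℝ) : v ∈ vectorSpan ℝ P ↔ v 0 + v 1 + v 2 = 0 := by
  constructor
  · intro hv
    rw [vectorSpan_def] at hv
    induction hv using Submodule.span_induction with
    | mem x hx =>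
      obtain ⟨a, ha, b, hb, rfl⟩ := hx
      have h1 := (P_sub ha).1
      have h2 := (P_sub hb).1
      simp only [vsub_eq_sub, Pi.sub_apply]
      linarith
    | zero => simp
    | add x y _ _ hx hy => simp only [Pi.add_apply]; linarith
    | smul a x _ hx =>
      simp only [Pi.smul_apply, smul_eq_mul]
      linear_combination a * hx
  · intro hv
    have d : ∀ i j, w i - w j ∈ vectorSpan ℝ P :=
      fun i j => vsub_mem_vectorSpan ℝ (w_mem i) (w_mem j)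
    have := add_mem (add_mem (add_mem (Submodule.smul_mem _ (v 0) (d 3 2))
      (Submodule.smul_mem _ (v 1) (d 4 2))) (Submodule.smul_mem _ (v 3) (d 0 3)))
      (Submodule.smul_mem _ (v 4) (d 1 4))
    convert this using 1
    rw [ext5]
    simp [w]
    linarith

end Pool.Agent.H68Z.Eqv
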